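import Pool.Agent.H39.HW.SStm

set_option autoImplicit false
open Classical Finset

namespace Pool.Agent.H31.HW

open Pool.Agent.H39.HW Pool.Agent.H39.HW.Sc

/-! ### numerical facts -/

theorem L_pos {x : Prm} (hx : Par x) : (1:ℝ) ≤ x.L := by
  have h1 := hx.h1
  have hh : x.h ≠ 0 := by
    intro h0
    rw [h0] at h1
    norm_num at h1
  have : 1 ≤ x.L := by
    rw [hx.L1]
    have : 1 ≤ x.h := Nat.one_le_iff_ne_zero.mpr hh
    nlinarith
  exact_mod_cast this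

theorem mu_small {x : Prm} (hx : Par x) : 10 ^ 10 * x.μ ≤ x.η * x.θ := by
  have hL := L_pos hx
  have hLn := hx.Ln
  have hu := hx.u1
  have hm := hx.m0
  have ht := hx.t0
  have hn := hx.n0
  have he := hx.e1
  have he0 := hx.e0
  have h4 : (x.L:ℝ) ≤ (x.L:ℝ) ^ 4 := by
    calc (x.L:ℝ) = (x.L:ℝ) ^ 1 := (pow_one _).symm
      _ ≤ (x.L:ℝ) ^ 4 := pow_le_pow_right₀ hL (by norm_num)
  have h5 : 10 ^ 9 * (x.L:ℝ) * x.μ ≤ x.ε * x.θ := by
    have : 10 ^ 9 * (x.L:ℝ) * x.μ ≤ 10 ^ 9 * (x.L:ℝ) ^ 4 * x.μ := by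
      apply mul_le_mul_of_nonneg_right _ hm.le
      linarith
    linarith
  have h6 : 10 ^ 9 * (x.L:ℝ) * x.μ * x.η ≤ x.ε * x.θ * x.η :=
    mul_le_mul_of_nonneg_right h5 hn.le
  have h7 : 10 ^ 9 * x.μ ≤ 10 ^ 9 * (x.L:ℝ) * x.μ * x.η := by
    have : 10 ^ 9 * x.μ * 1 ≤ 10 ^ 9 * x.μ * (x.η * x.L) :=
      mul_le_mul_of_nonneg_left hLn (by positivity)
    nlinarith
  have h8 : x.ε * x.θ * x.η ≤ 1 / 10 * (x.θ * x.η) := by
    have : x.ε * (x.θ * x.η) ≤ 1 / 10 * (x.θ * x.η) :=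
      mul_le_mul_of_nonneg_right he (by positivity)
    linarith
  nlinarith

theorem hq_small {x : Prm} (hx : Par x) : 2 * x.h * x.q * ((x.v : ℝ) / x.D) ≤ x.η * x.θ / 60 := by
  have hL := L_pos hx
  have hLn := hx.Ln
  have ht := hx.t0
  have h := hx.q3
  have h1 : x.θ / (60 * x.L) ≤ x.η * x.θ / 60 := by
    rw [div_le_div_iff₀ (by positivity) (by norm_num)]
    have : x.θ * 1 ≤ x.θ * (x.η * x.L) := mul_le_mul_of_nonneg_left hLn ht.le
    nlinarith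
  linarith

theorem hq_nonneg (x : Prm) : 0 ≤ 2 * x.h * x.q * ((x.v : ℝ) / x.D) := by positivity

theorem eta_small {x : Prm} (hx : Par x) : x.η ≤ 1 / 10 ^ 5 := by
  have := hx.n1
  have := hx.e1
  linarith

theorem MD_small {x : Prm} (hx : Par x) : (x.M : ℝ) / x.D ≤ x.η * x.θ * x.μ := by
  have h := hx.D2
  have hD : (0:ℝ) < x.D := by
    have := hx.D1
    exact_mod_cast this
  have hB : (x.M : ℝ) ≤ x.B := by
    have : x.M ≤ x.B := by unfold Prm.B; omega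
    exact_mod_cast this
  have hM : (0:ℝ) ≤ x.M := Nat.cast_nonneg _
  rw [div_le_iff₀ hD]
  have : (x.M:ℝ) ≤ 10 ^ 9 * ((x.B : ℝ) + 1) := by nlinarith
  linarith

theorem Dt_bound {x : Prm} (hx : Par x) (hTOT : S_TOT) {a : ℕ} (ha : a ∈ x.R) :
    |x.Dt a / 2 - x.θ / 2| ≤ x.η * x.θ := by
  have h := hTOT x hx a ha
  have h1 := hq_small hx
  have h2 := hq_nonneg x
  have h3 := mu_small hx
  have h4 := hx.m0
  have h5 : 0 < x.η * x.θ := mul_pos hx.n0 hx.t0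
  rw [abs_le] at h ⊢
  constructor <;> nlinarith [h.1, h.2]

/-! ### the identity -/

theorem mem_mid (x : Prm) (β : ℕ) : β ∈ x.mid ↔ x.b0 ≤ β ∧ β < x.b1 := by
  unfold Prm.mid
  rw [Finset.mem_Ico]

theorem gA_split (x : Prm) (l : ℝ) (a β : ℕ) :
    x.gA l a β = x.gA 0 a β +
      (if β ∈ x.mid ∧ x.adj a β ∧ (x.b1 ≤ a + x.K ↔ β < a) then l else 0) := by
  by_cases hc : β ∈ x.mid ∧ x.adj a β ∧ (x.b1 ≤ a + x.K ↔ β < a)
  · rw [if_pos hc]
    obtain ⟨h1, h2, h3⟩ := hc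
    rw [mem_mid] at h1
    unfold Prm.gA
    rw [if_neg (by omega), if_neg (by omega), if_pos h2, if_pos h3, if_neg (by omega),
      if_neg (by omega), if_pos h2, if_pos h3]
    ring
  · rw [if_neg hc, add_zero]
    unfold Prm.gA
    by_cases h1 : β < x.b0
    · rw [if_pos h1, if_pos h1]
    by_cases h2 : x.b1 ≤ β
    · rw [if_neg h1, if_pos h2, if_neg h1, if_pos h2]
    rw [if_neg h1, if_neg h2, if_neg h1, if_neg h2]
    by_cases h3 : x.adj a β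
    · have h4 : ¬ (x.b1 ≤ a + x.K ↔ β < a) := fun h4 =>
        hc ⟨(mem_mid x β).mpr ⟨by omega, by omega⟩, h3, h4⟩
      rw [if_pos h3, if_pos h3, if_neg h4, if_neg h4]
    · rw [if_neg h3, if_neg h3]

theorem key (x : Prm) (a : ℕ) (h0 : x.DJ a ≠ 0) :
    ∑ β ∈ x.cls a, x.gA (x.lam a) a β * x.dem a β = x.Dt a / 2 := by
  have h1 : ∑ β ∈ x.cls a, x.gA (x.lam a) a β * x.dem a β =
      ∑ β ∈ x.cls a, x.gA 0 a β * x.dem a β + x.lam a * x.DJ a := by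
    unfold Prm.DJ Prm.Fx
    rw [Finset.mul_sum, Finset.sum_filter, ← Finset.sum_add_distrib]
    apply Finset.sum_congr rfl
    intro β _
    rw [gA_split]
    split_ifs <;> ring
  rw [h1]
  have h2 : x.lam a * x.DJ a = x.Dt a / 2 - ∑ β ∈ x.cls a, x.gA 0 a β * x.dem a β := by
    unfold Prm.lam
    field_simp
  linarith

/-! ### sums over blocks which are not adjacent -/

theorem sum_int {f : ℕ → ℝ} {u v s : ℕ} {lo hi : ℝ} (huv : u ≤ v) (h0 : 0 ≤ lo) (h2 : 0 ≤ hi)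
    (h1 : ∀ β, u ≤ β → β < v → β ≠ s → lo ≤ f β ∧ f β ≤ hi) :
    ((v : ℝ) - u - 1) * lo ≤ ∑ β ∈ (Finset.Ico u v).erase s, f β ∧
      ∑ β ∈ (Finset.Ico u v).erase s, f β ≤ ((v : ℝ) - u) * hi := by
  have hc : (Finset.Ico u v).card = v - u := by simp
  have hc1 : ((Finset.Ico u v).erase s).card ≤ v - u := by
    rw [← hc]; exact Finset.card_erase_le
  have hc2 : v - u ≤ ((Finset.Ico u v).erase s).card + 1 := by
    rw [← hc]
    have := Finset.pred_card_le_card_erase (s := Finset.Ico u v) (a := s)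
    omega
  have hm : ∀ β ∈ (Finset.Ico u v).erase s, lo ≤ f β ∧ f β ≤ hi := by
    intro β hβ
    rw [Finset.mem_erase, Finset.mem_Ico] at hβ
    exact h1 β hβ.2.1 hβ.2.2 hβ.1
  have e1 := Finset.card_nsmul_le_sum ((Finset.Ico u v).erase s) f lo (fun β hβ => (hm β hβ).1)
  have e2 := Finset.sum_le_card_nsmul ((Finset.Ico u v).erase s) f hi (fun β hβ => (hm β hβ).2)
  rw [nsmul_eq_mul] at e1 e2
  have c1 : ((((Finset.Ico u v).erase s).card : ℕ) : ℝ) ≤ (v : ℝ) - u := by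
    have : ((((Finset.Ico u v).erase s).card : ℕ) : ℝ) ≤ ((v - u : ℕ) : ℝ) := by exact_mod_cast hc1
    rw [Nat.cast_sub huv] at this
    exact this
  have c2 : (v : ℝ) - u - 1 ≤ ((((Finset.Ico u v).erase s).card : ℕ) : ℝ) := by
    have : ((v - u : ℕ) : ℝ) ≤ ((((Finset.Ico u v).erase s).card : ℕ) : ℝ) + 1 := by
      exact_mod_cast hc2
    rw [Nat.cast_sub huv] at this
    linarith
  exact ⟨le_trans (mul_le_mul_of_nonneg_right c2 h0) e1,
    le_trans e2 (mul_le_mul_of_nonneg_right c1 h2)⟩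

theorem nonadj_cls {x : Prm} (hx : Par x) (hCLD : S_CLD) (hMMD : S_MMD) {a : ℕ} (ha : a ∈ x.R)
    {β : ℕ} (hB : β < x.B) (hn : ¬ x.adj a β) : β ∈ x.cls a ↔ β ≠ sm x.B a a := by
  constructor
  · intro h
    exact (((hCLD x hx a ha).1 β).mp h).2.2.1
  · intro h
    exact (hCLD x hx a ha).2.1 ((((hMMD x hx).2 a ha).1 β).mpr ⟨hB, hn, h⟩)

theorem dem_mid {x : Prm} (hx : Par x) (hBLK : S_BLK) (hCLD : S_CLD) {a : ℕ} (ha : a ∈ x.R)
    {β : ℕ} (h0 : x.b0 ≤ β) (h1 : β < x.b1) (hc : β ∈ x.cls a) (hn : ¬ x.adj a β) :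
    (1 - x.η) * (x.θ * x.μ) ≤ x.dem a β ∧ x.dem a β ≤ (1 + x.η) * (x.θ * x.μ) := by
  have e := (hCLD x hx a ha).2.2.2.1 β hc hn
  have e2 := (hBLK x hx).2.2.2.2.2.1 β h0 h1
  rw [e2] at e
  have s := abs_le.mp hx.s2
  rw [e]
  constructor <;> nlinarith [s.1, s.2]

theorem dem_out {x : Prm} (hx : Par x) (hBLK : S_BLK) (hCLD : S_CLD) {a : ℕ} (ha : a ∈ x.R)
    {β : ℕ} (h0 : β < x.b0 ∨ x.b1 ≤ β) (hB : β < x.B) (hc : β ∈ x.cls a) (hn : ¬ x.adj a β) :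
    (2 / 5 - x.η) * (x.θ * x.μ) ≤ x.dem a β ∧ x.dem a β ≤ (2 / 5 + 2 * x.η) * (x.θ * x.μ) := by
  have e := (hCLD x hx a ha).2.2.2.1 β hc hn
  have s := abs_le.mp hx.s1
  have hD : (0:ℝ) < x.D := by
    have := hx.D1
    exact_mod_cast this
  have hw : (x.w : ℝ) ≤ ln x.st β ∧ (ln x.st β : ℝ) ≤ x.w + x.M := by
    rcases h0 with h0 | h0
    · have := (hBLK x hx).2.2.2.2.1 β h0
      rw [this]
      exact ⟨le_refl _, by simp⟩
    · by_cases h2 : β + 1 < x.B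
      · have := (hBLK x hx).2.2.2.2.2.2.1 β h0 h2
        rw [this]
        exact ⟨le_refl _, by simp⟩
      · have := (hBLK x hx).2.2.2.2.2.2.2 β (by omega)
        exact ⟨by exact_mod_cast this.1, by exact_mod_cast this.2⟩
  have h3 : (x.w : ℝ) / x.D ≤ (ln x.st β : ℝ) / x.D := div_le_div_of_nonneg_right hw.1 hD.le
  have h4 : (ln x.st β : ℝ) / x.D ≤ (x.w : ℝ) / x.D + x.M / x.D := by
    rw [← add_div]; exact div_le_div_of_nonneg_right hw.2 hD.le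
  have h5 := MD_small hx
  rw [e]
  constructor <;> nlinarith [s.1, s.2]

/-- the sum over an interval of the middle zone -/
theorem sum_mid {x : Prm} (hx : Par x) (hBLK : S_BLK) (hCLD : S_CLD) (hMMD : S_MMD) {a : ℕ}
    (ha : a ∈ x.R) {u v : ℕ} (huv : u ≤ v) (hu : x.b0 ≤ u) (hv : v ≤ x.b1) (P : ℕ → Prop)
    [DecidablePred P]
    (hn : ∀ β, u ≤ β → β < v → ¬ x.adj a β)
    (hP : ∀ β ∈ x.cls a, P β ↔ u ≤ β ∧ β < v) :
    (((v : ℝ) - u) * x.μ - x.μ) * ((1 - x.η) * x.θ) ≤ ∑ β ∈ (x.cls a).filter P, x.dem a β ∧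
      ∑ β ∈ (x.cls a).filter P, x.dem a β ≤ (((v : ℝ) - u) * x.μ) * ((1 + x.η) * x.θ) := by
  have hvB : ∀ β, β < x.b1 → β < x.B := by
    intro β hβ
    unfold Prm.b1 at hβ
    unfold Prm.B
    omega
  have hT : (x.cls a).filter P = (Finset.Ico u v).erase (sm x.B a a) := by
    ext β
    rw [Finset.mem_filter, Finset.mem_erase, Finset.mem_Ico]
    constructor
    · rintro ⟨h1, h2⟩
      have h3 := (hP β h1).mp h2
      exact ⟨(nonadj_cls hx hCLD hMMD ha (hvB β (by omega)) (hn β h3.1 h3.2)).mp h1, h3⟩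
    · rintro ⟨h1, h2⟩
      have h3 := (nonadj_cls hx hCLD hMMD ha (hvB β (by omega)) (hn β h2.1 h2.2)).mpr h1
      exact ⟨h3, (hP β h3).mpr h2⟩
  have hη := eta_small hx
  have h0 : 0 ≤ x.θ * x.μ := (mul_pos hx.t0 hx.m0).le
  have h := sum_int (f := x.dem a) (s := sm x.B a a) huv
    (mul_nonneg (by linarith : (0:ℝ) ≤ 1 - x.η) h0)
    (mul_nonneg (by linarith [hx.n0] : (0:ℝ) ≤ 1 + x.η) h0)
    (fun β h1 h2 h3 => dem_mid hx hBLK hCLD ha (by omega) (by omega)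
      ((nonadj_cls hx hCLD hMMD ha (hvB β (by omega)) (hn β h1 h2)).mpr h3) (hn β h1 h2))
  rw [hT]
  constructor
  · refine le_trans (le_of_eq ?_) h.1
    ring
  · refine le_trans h.2 (le_of_eq ?_)
    ring

/-- the sum over an interval outside the middle zone -/
theorem sum_out {x : Prm} (hx : Par x) (hBLK : S_BLK) (hCLD : S_CLD) (hMMD : S_MMD) {a : ℕ}
    (ha : a ∈ x.R) {u v : ℕ} (huv : u ≤ v) (hu : v ≤ x.b0 ∨ x.b1 ≤ u) (hv : v ≤ x.B) (P : ℕ → Prop)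
    [DecidablePred P]
    (hn : ∀ β, u ≤ β → β < v → ¬ x.adj a β)
    (hP : ∀ β ∈ x.cls a, P β ↔ u ≤ β ∧ β < v) :
    (((v : ℝ) - u) * x.μ - x.μ) * ((2 / 5 - x.η) * x.θ) ≤ ∑ β ∈ (x.cls a).filter P, x.dem a β ∧
      ∑ β ∈ (x.cls a).filter P, x.dem a β ≤
        (((v : ℝ) - u) * x.μ) * ((2 / 5 + 2 * x.η) * x.θ) := by
  have hT : (x.cls a).filter P = (Finset.Ico u v).erase (sm x.B a a) := by
    ext β
    rw [Finset.mem_filter, Finset.mem_erase, Finset.mem_Ico]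
    constructor
    · rintro ⟨h1, h2⟩
      have h3 := (hP β h1).mp h2
      exact ⟨(nonadj_cls hx hCLD hMMD ha (by omega) (hn β h3.1 h3.2)).mp h1, h3⟩
    · rintro ⟨h1, h2⟩
      have h3 := (nonadj_cls hx hCLD hMMD ha (by omega) (hn β h2.1 h2.2)).mpr h1
      exact ⟨h3, (hP β h3).mpr h2⟩
  have hη := eta_small hx
  have h0 : 0 ≤ x.θ * x.μ := (mul_pos hx.t0 hx.m0).le
  have h := sum_int (f := x.dem a) (s := sm x.B a a) huv
    (mul_nonneg (by linarith : (0:ℝ) ≤ 2 / 5 - x.η) h0)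
    (mul_nonneg (by linarith [hx.n0] : (0:ℝ) ≤ 2 / 5 + 2 * x.η) h0)
    (fun β h1 h2 h3 => dem_out hx hBLK hCLD ha (by omega) (by omega)
      ((nonadj_cls hx hCLD hMMD ha (by omega) (hn β h1 h2)).mpr h3) (hn β h1 h2))
  rw [hT]
  constructor
  · refine le_trans (le_of_eq ?_) h.1
    ring
  · refine le_trans h.2 (le_of_eq ?_)
    ring

/-- splitting the sum over the classes -/
theorem split (x : Prm) (a : ℕ) (F : ℕ → Prop) [DecidablePred F] (g : ℕ → ℝ) (w1 w2 w3 w4 w5 w6 : ℝ)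
    (h1 : ∀ β, β < x.b0 → g β = w1) (h2 : ∀ β, x.b0 ≤ β → x.b1 ≤ β → g β = w2)
    (h3 : ∀ β, x.b0 ≤ β → β < x.b1 → x.adj a β → (x.b1 ≤ a + x.K ↔ β < a) → g β = w3)
    (h4 : ∀ β, x.b0 ≤ β → β < x.b1 → x.adj a β → ¬ (x.b1 ≤ a + x.K ↔ β < a) → g β = w4)
    (h5 : ∀ β, x.b0 ≤ β → β < x.b1 → ¬ x.adj a β → F β → g β = w5)
    (h6 : ∀ β, x.b0 ≤ β → β < x.b1 → ¬ x.adj a β → ¬ F β → g β = w6) :
    ∑ β ∈ x.cls a, g β * x.dem a β =
      w1 * ∑ β ∈ (x.cls a).filter (fun β => β < x.b0), x.dem a β +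
      w2 * ∑ β ∈ (x.cls a).filter (fun β => x.b0 ≤ β ∧ x.b1 ≤ β), x.dem a β +
      w3 * x.DJ a + w4 * x.DN a +
      w5 * ∑ β ∈ (x.cls a).filter (fun β => β ∈ x.mid ∧ ¬ x.adj a β ∧ F β), x.dem a β +
      w6 * ∑ β ∈ (x.cls a).filter (fun β => β ∈ x.mid ∧ ¬ x.adj a β ∧ ¬ F β), x.dem a β := by
  unfold Prm.DJ Prm.DN Prm.Fx Prm.Nx
  simp only [Finset.sum_filter, Finset.mul_sum, ← Finset.sum_add_distrib]
  apply Finset.sum_congr rfl
  intro β _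
  have hm := mem_mid x β
  by_cases c1 : β < x.b0
  · have n1 : ¬ (x.b0 ≤ β ∧ x.b1 ≤ β) := by omega
    have n2 : ¬ β ∈ x.mid := by rw [hm]; omega
    rw [h1 β c1, if_pos c1, if_neg n1, if_neg (fun h => n2 h.1), if_neg (fun h => n2 h.1),
      if_neg (fun h => n2 h.1), if_neg (fun h => n2 h.1)]
    ring
  by_cases c2 : x.b1 ≤ β
  · have n1 : (x.b0 ≤ β ∧ x.b1 ≤ β) := by omega
    have n2 : ¬ β ∈ x.mid := by rw [hm]; omega
    rw [h2 β (by omega) c2, if_neg c1, if_pos n1, if_neg (fun h => n2 h.1),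
      if_neg (fun h => n2 h.1), if_neg (fun h => n2 h.1), if_neg (fun h => n2 h.1)]
    ring
  have n1 : ¬ (x.b0 ≤ β ∧ x.b1 ≤ β) := by omega
  have n2 : β ∈ x.mid := by rw [hm]; omega
  by_cases c3 : x.adj a β
  · by_cases c4 : (x.b1 ≤ a + x.K ↔ β < a)
    · rw [h3 β (by omega) (by omega) c3 c4, if_neg c1, if_neg n1, if_pos ⟨n2, c3, c4⟩,
        if_neg (fun h => h.2.2 c4), if_neg (fun h => h.2.1 c3), if_neg (fun h => h.2.1 c3)]
      ring
    · rw [h4 β (by omega) (by omega) c3 c4, if_neg c1, if_neg n1, if_neg (fun h => c4 h.2.2),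
        if_pos ⟨n2, c3, c4⟩, if_neg (fun h => h.2.1 c3), if_neg (fun h => h.2.1 c3)]
      ring
  · by_cases c4 : F β
    · rw [h5 β (by omega) (by omega) c3 c4, if_neg c1, if_neg n1, if_neg (fun h => c3 h.2.1),
        if_neg (fun h => c3 h.2.1), if_pos ⟨n2, c3, c4⟩, if_neg (fun h => h.2.2 c4)]
      ring
    · rw [h6 β (by omega) (by omega) c3 c4, if_neg c1, if_neg n1, if_neg (fun h => c3 h.2.1),
        if_neg (fun h => c3 h.2.1), if_neg (fun h => c4 h.2.2), if_pos ⟨n2, c3, c4⟩]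
      ring

/-- splitting the total -/
theorem split_Dt (x : Prm) (a : ℕ) (F : ℕ → Prop) [DecidablePred F] :
    x.Dt a = ∑ β ∈ (x.cls a).filter (fun β => β < x.b0), x.dem a β +
      ∑ β ∈ (x.cls a).filter (fun β => x.b0 ≤ β ∧ x.b1 ≤ β), x.dem a β +
      x.DJ a + x.DN a +
      ∑ β ∈ (x.cls a).filter (fun β => β ∈ x.mid ∧ ¬ x.adj a β ∧ F β), x.dem a β +
      ∑ β ∈ (x.cls a).filter (fun β => β ∈ x.mid ∧ ¬ x.adj a β ∧ ¬ F β), x.dem a β := by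
  have h := split x a F (fun _ => 1) 1 1 1 1 1 1 (fun _ _ => rfl) (fun _ _ _ => rfl)
    (fun _ _ _ _ _ => rfl) (fun _ _ _ _ _ => rfl) (fun _ _ _ _ _ => rfl) (fun _ _ _ _ _ => rfl)
  simp only [one_mul] at h
  unfold Prm.Dt
  exact h

theorem DJ_ne {x : Prm} (hx : Par x) (hDJN : S_DJN) {a : ℕ} (ha : a ∈ x.R) : x.DJ a ≠ 0 := by
  have h := (hDJN x hx a ha).1
  have h1 : 0 < (3 / 5 * x.c - 4 * x.η) * x.θ := by
    apply mul_pos _ hx.t0
    have := hx.c1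
    have := hx.n1
    have := hx.n0
    linarith
  exact (lt_of_lt_of_le h1 h).ne'

end Pool.Agent.H31.HW
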