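import Pool.Agent.H31.HW.SLmr

set_option autoImplicit false
open Classical Finset

namespace Pool.Agent.H31.HW

open Pool.Agent.H39.HW Pool.Agent.H39.HW.Sc

theorem t_LML (hBLK : S_BLK) (hCLD : S_CLD) (hTOT : S_TOT) (hDJN : S_DJN) (hMMD : S_MMD) :
    S_LML := by
  intro x hx a ha hLL
  have hDt := Dt_bound hx hTOT ha
  have hkey := key x a (DJ_ne hx hDJN ha)
  have haR := ha
  unfold Prm.R at haR
  rw [Finset.mem_Icc] at haR
  have hKJ := hx.KJ
  have hKM := hx.KM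
  have hJ1 := hx.J1
  have hb0 : x.b0 = x.K + x.J := rfl
  have hb1 : x.b1 = x.K + x.J + x.M := rfl
  have hB : x.B = 2 * x.K + 2 * x.J + x.M := rfl
  have hRR : ¬ x.b1 ≤ a + x.K := by omega
  have h1 := split x a (fun β => x.b0 + 2 * x.K ≤ β) (x.gA (x.lam a) a) 0 1 (x.lam a) (1 / 2)
    (1 / 2 + x.c / 10) (2 / 5) (fun β h => gA_lo x _ a β h) (fun β h0 h => gA_hi x _ a β h0 h)
    (fun β h0 h h1 h2 => gA_fl x _ a β h0 h h1 h2) (fun β h0 h h1 h2 => gA_nf x _ a β h0 h h1 h2)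
    (fun β h0 h h1 h2 => by
      unfold Prm.gA
      rw [if_neg (by omega), if_neg (by omega), if_neg h1, if_neg hRR, if_pos hLL, if_pos h2])
    (fun β h0 h h1 h2 => by
      unfold Prm.gA
      rw [if_neg (by omega), if_neg (by omega), if_neg h1, if_neg hRR, if_pos hLL, if_neg h2])
  rw [hkey] at h1
  have g1 := sum_out hx hBLK hCLD hMMD ha (u := x.b1) (v := x.B) (by omega) (Or.inr (le_refl _))
    (le_refl _) (fun β => x.b0 ≤ β ∧ x.b1 ≤ β) (fun β _ h => by unfold Prm.adj; omega)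
    (fun β hc => by
      have := ((hCLD x hx a ha).1 β).mp hc
      omega)
  have g5 := sum_mid hx hBLK hCLD hMMD ha (u := x.b0 + 2 * x.K) (v := x.b1) (by omega)
    (by omega) (le_refl _) (fun β => β ∈ x.mid ∧ ¬ x.adj a β ∧ x.b0 + 2 * x.K ≤ β)
    (fun β _ h => by unfold Prm.adj; omega)
    (fun β _ => by rw [mem_mid]; unfold Prm.adj; omega)
  have g6 := sum_mid hx hBLK hCLD hMMD ha (u := a + x.K + 1) (v := x.b0 + 2 * x.K) (by omega)
    (by omega) (by omega) (fun β => β ∈ x.mid ∧ ¬ x.adj a β ∧ ¬ x.b0 + 2 * x.K ≤ β)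
    (fun β _ h => by unfold Prm.adj; omega)
    (fun β _ => by rw [mem_mid]; unfold Prm.adj; omega)
  set S1 := ∑ β ∈ (x.cls a).filter (fun β => β < x.b0), x.dem a β
  set S2 := ∑ β ∈ (x.cls a).filter (fun β => x.b0 ≤ β ∧ x.b1 ≤ β), x.dem a β
  set S5 := ∑ β ∈ (x.cls a).filter
    (fun β => β ∈ x.mid ∧ ¬ x.adj a β ∧ x.b0 + 2 * x.K ≤ β), x.dem a β
  set S6 := ∑ β ∈ (x.cls a).filter
    (fun β => β ∈ x.mid ∧ ¬ x.adj a β ∧ ¬ x.b0 + 2 * x.K ≤ β), x.dem a β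
  have e1 : ((x.b0 + 2 * x.K : ℕ) : ℝ) = x.K + x.J + 2 * x.K := by rw [hb0]; push_cast; ring
  have e2 : ((a + x.K + 1 : ℕ) : ℝ) = a + x.K + 1 := by push_cast; ring
  have e3 : ((x.b0 : ℕ) : ℝ) = x.K + x.J := by rw [hb0]; push_cast; ring
  have e4 : ((x.b1 : ℕ) : ℝ) = x.K + x.J + x.M := by rw [hb1]; push_cast; ring
  have e5 : ((x.B : ℕ) : ℝ) = 2 * x.K + 2 * x.J + x.M := by rw [hB]; push_cast; ring
  have hηθ := mul_pos hx.n0 hx.t0
  have hmu := mu_small hx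
  have hmu0 := hx.m0
  have hth : x.θ ≤ 1 := by
    have := hx.th
    have := eta_small hx
    linarith
  have hmu1 : x.μ ≤ x.η / 10 := by
    have : x.η * x.θ ≤ x.η * 1 := mul_le_mul_of_nonneg_left hth hx.n0.le
    linarith
  have hr0 : (0:ℝ) ≤ ((x.b0:ℝ) + x.K - a) * x.μ := by
    apply mul_nonneg _ hmu0.le
    have : (a : ℝ) ≤ x.b0 + x.K := by exact_mod_cast hLL.le
    linarith
  have k1 := abs_le.mp hx.k1
  have j1 := hx.j1
  have hr1 : ((x.b0:ℝ) + x.K - a) * x.μ ≤ 1 := by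
    have h3 : (x.b0:ℝ) + x.K - a ≤ x.K + x.J := by
      have : x.b0 + x.K ≤ x.K + x.J + a := by omega
      have : (x.b0:ℝ) + x.K ≤ x.K + x.J + a := by exact_mod_cast this
      linarith
    have h4 : ((x.b0:ℝ) + x.K - a) * x.μ ≤ (x.K + x.J) * x.μ :=
      mul_le_mul_of_nonneg_right h3 hmu0.le
    have := hx.c2
    have := eta_small hx
    have := hx.e0
    linarith [k1.2]
  have hJm : x.μ ≤ x.J * x.μ := by
    have : (1:ℝ) ≤ x.J := by exact_mod_cast hJ1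
    nlinarith
  have h3 : 0 ≤ (1 - x.η) * x.θ := mul_nonneg (by linarith [eta_small hx]) hx.t0.le
  have h3' : 0 ≤ (1 + x.η) * x.θ := mul_nonneg (by linarith [hx.n0]) hx.t0.le
  have hfin := arith (c := x.c) (η := x.η) (θ := x.θ) (κ := x.K * x.μ) (ι := x.J * x.μ)
    (ν := x.M * x.μ) (μ := x.μ) (r := ((x.b0:ℝ) + x.K - a) * x.μ) (S1 := S2) (S5 := S5) (S6 := S6)
    (by linarith [hx.c1, hx.e0]) (by linarith [hx.c2, hx.e0]) hx.n0 (eta_small hx) hx.t0 hx.k1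
    hx.m1 j1 hJm hmu0 hmu1 hr0 hr1
    (by
      refine le_trans (le_of_eq ?_) g1.1
      rw [e4, e5]; ring)
    (by
      refine le_trans g1.2 (le_of_eq ?_)
      rw [e4, e5]; ring)
    (by
      refine le_trans (le_of_eq ?_) g5.1
      rw [e1, e4]; ring)
    (by
      refine le_trans g5.2 (le_of_eq ?_)
      rw [e1, e4]; ring)
    (by
      refine le_trans (le_of_eq ?_) g6.1
      rw [e1, e2, e3]; ring)
    (by
      refine le_trans g6.2 ?_
      rw [e1, e2, e3]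
      apply mul_le_mul_of_nonneg_right _ h3'
      linarith)
  have hX : x.lam a * x.DJ a + x.DN a / 2 =
      x.Dt a / 2 - S2 - (1 / 2 + x.c / 10) * S5 - 2 / 5 * S6 := by
    linarith [h1]
  rw [hX]
  rw [abs_le] at hfin hDt ⊢
  constructor
  · linarith [hfin.1, hDt.1]
  · linarith [hfin.2, hDt.2]

end Pool.Agent.H31.HW
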