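import Pool.Agent.H31.HW.SLm

set_option autoImplicit false
open Classical Finset

namespace Pool.Agent.H31.HW

open Pool.Agent.H39.HW Pool.Agent.H39.HW.Sc

theorem gA_lo (x : Prm) (l : ℝ) (a β : ℕ) (h : β < x.b0) : x.gA l a β = 0 := by
  unfold Prm.gA
  rw [if_pos h]

theorem gA_hi (x : Prm) (l : ℝ) (a β : ℕ) (h0 : x.b0 ≤ β) (h : x.b1 ≤ β) : x.gA l a β = 1 := by
  unfold Prm.gA
  rw [if_neg (by omega), if_pos h]

theorem gA_fl (x : Prm) (l : ℝ) (a β : ℕ) (h0 : x.b0 ≤ β) (h : β < x.b1) (h1 : x.adj a β)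
    (h2 : x.b1 ≤ a + x.K ↔ β < a) : x.gA l a β = l := by
  unfold Prm.gA
  rw [if_neg (by omega), if_neg (by omega), if_pos h1, if_pos h2]

theorem gA_nf (x : Prm) (l : ℝ) (a β : ℕ) (h0 : x.b0 ≤ β) (h : β < x.b1) (h1 : x.adj a β)
    (h2 : ¬ (x.b1 ≤ a + x.K ↔ β < a)) : x.gA l a β = 1 / 2 := by
  unfold Prm.gA
  rw [if_neg (by omega), if_neg (by omega), if_pos h1, if_neg h2]

/-- numbers -/
theorem arith {c η θ κ ι ν μ r S1 S5 S6 : ℝ} (hc0 : 0 ≤ c) (hc1 : c ≤ 1 / 2) (hη : 0 < η)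
    (hη1 : η ≤ 1 / 10 ^ 5) (hθ : 0 < θ) (hκ : |κ - c| ≤ η) (hν : |ν - 1| ≤ η)
    (hι : ι ≤ η) (hι0 : μ ≤ ι) (hμ : 0 < μ) (hμ1 : μ ≤ η / 10) (_hr0 : 0 ≤ r) (hr1 : r ≤ 1)
    (s1 : (κ + ι - μ) * ((2 / 5 - η) * θ) ≤ S1) (s1' : S1 ≤ (κ + ι) * ((2 / 5 + 2 * η) * θ))
    (s5 : (ν - 2 * κ - μ) * ((1 - η) * θ) ≤ S5) (s5' : S5 ≤ (ν - 2 * κ) * ((1 + η) * θ))
    (s6 : (r - 2 * μ) * ((1 - η) * θ) ≤ S6) (s6' : S6 ≤ r * ((1 + η) * θ)) :
    |(θ / 2 - S1 - (1 / 2 + c / 10) * S5 - 2 / 5 * S6) -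
      (c / 2 + c ^ 2 / 5 - 2 / 5 * r) * θ| ≤ 10 * η * θ := by
  rw [abs_le] at hκ hν
  have hηθ : 0 < η * θ := mul_pos hη hθ
  -- S1
  have a1 : (2 / 5 * c - 3 * η) * θ ≤ S1 := by
    refine le_trans ?_ s1
    have e : (2 / 5 * c - 3 * η) ≤ (κ + ι - μ) * (2 / 5 - η) := by
      have : c - η ≤ κ + ι - μ := by linarith
      have h2 : (c - η) * (2 / 5 - η) ≤ (κ + ι - μ) * (2 / 5 - η) :=
        mul_le_mul_of_nonneg_right this (by linarith)
      nlinarith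
    calc (2 / 5 * c - 3 * η) * θ ≤ ((κ + ι - μ) * (2 / 5 - η)) * θ :=
          mul_le_mul_of_nonneg_right e hθ.le
      _ = _ := by ring
  have a1' : S1 ≤ (2 / 5 * c + 3 * η) * θ := by
    refine le_trans s1' ?_
    have e : (κ + ι) * (2 / 5 + 2 * η) ≤ (2 / 5 * c + 3 * η) := by
      have : κ + ι ≤ c + 2 * η := by linarith
      have h2 : (κ + ι) * (2 / 5 + 2 * η) ≤ (c + 2 * η) * (2 / 5 + 2 * η) :=
        mul_le_mul_of_nonneg_right this (by linarith)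
      nlinarith
    calc (κ + ι) * ((2 / 5 + 2 * η) * θ) = ((κ + ι) * (2 / 5 + 2 * η)) * θ := by ring
      _ ≤ _ := mul_le_mul_of_nonneg_right e hθ.le
  have a5 : (1 - 2 * c - 5 * η) * θ ≤ S5 := by
    refine le_trans ?_ s5
    have e : (1 - 2 * c - 5 * η) ≤ (ν - 2 * κ - μ) * (1 - η) := by
      have : 1 - 2 * c - 4 * η ≤ ν - 2 * κ - μ := by linarith
      have h2 : (1 - 2 * c - 4 * η) * (1 - η) ≤ (ν - 2 * κ - μ) * (1 - η) :=
        mul_le_mul_of_nonneg_right this (by linarith)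
      nlinarith
    calc (1 - 2 * c - 5 * η) * θ ≤ ((ν - 2 * κ - μ) * (1 - η)) * θ :=
          mul_le_mul_of_nonneg_right e hθ.le
      _ = _ := by ring
  have a5' : S5 ≤ (1 - 2 * c + 5 * η) * θ := by
    refine le_trans s5' ?_
    have e : (ν - 2 * κ) * (1 + η) ≤ (1 - 2 * c + 5 * η) := by
      have : ν - 2 * κ ≤ 1 - 2 * c + 3 * η := by linarith
      have h2 : (ν - 2 * κ) * (1 + η) ≤ (1 - 2 * c + 3 * η) * (1 + η) :=
        mul_le_mul_of_nonneg_right this (by linarith)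
      nlinarith
    calc (ν - 2 * κ) * ((1 + η) * θ) = ((ν - 2 * κ) * (1 + η)) * θ := by ring
      _ ≤ _ := mul_le_mul_of_nonneg_right e hθ.le
  have a6 : (r - 2 * η) * θ ≤ S6 := by
    refine le_trans ?_ s6
    have e : (r - 2 * η) ≤ (r - 2 * μ) * (1 - η) := by
      have q1 : r * η ≤ 1 * η := mul_le_mul_of_nonneg_right hr1 hη.le
      have q2 : 0 < μ * η := mul_pos hμ hη
      linarith
    calc (r - 2 * η) * θ ≤ ((r - 2 * μ) * (1 - η)) * θ := mul_le_mul_of_nonneg_right e hθ.le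
      _ = _ := by ring
  have a6' : S6 ≤ (r + 2 * η) * θ := by
    refine le_trans s6' ?_
    have e : r * (1 + η) ≤ (r + 2 * η) := by
      have q1 : r * η ≤ 1 * η := mul_le_mul_of_nonneg_right hr1 hη.le
      linarith
    calc r * ((1 + η) * θ) = (r * (1 + η)) * θ := by ring
      _ ≤ (r + 2 * η) * θ := mul_le_mul_of_nonneg_right e hθ.le
  have b5 : (1 / 2 + c / 10) * ((1 - 2 * c - 5 * η) * θ) ≤ (1 / 2 + c / 10) * S5 :=
    mul_le_mul_of_nonneg_left a5 (by linarith)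
  have b5' : (1 / 2 + c / 10) * S5 ≤ (1 / 2 + c / 10) * ((1 - 2 * c + 5 * η) * θ) :=
    mul_le_mul_of_nonneg_left a5' (by linarith)
  have b6 : 0 ≤ c * (η * θ) := by positivity
  have b7 : c * (η * θ) ≤ 1 / 2 * (η * θ) := mul_le_mul_of_nonneg_right hc1 hηθ.le
  rw [abs_le]
  constructor
  · linarith
  · linarith

theorem t_LMR (hBLK : S_BLK) (hCLD : S_CLD) (hTOT : S_TOT) (hDJN : S_DJN) (hMMD : S_MMD) :
    S_LMR := by
  intro x hx a ha hRR
  have hDt := Dt_bound hx hTOT ha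
  have hkey := key x a (DJ_ne hx hDJN ha)
  have haR := ha
  unfold Prm.R at haR
  rw [Finset.mem_Icc] at haR
  have hKJ := hx.KJ
  have hKM := hx.KM
  have hJ1 := hx.J1
  have hb0 : x.b0 = x.K + x.J := rfl
  have hb1 : x.b1 = x.K + x.J + x.M := rfl
  have hB : x.B = 2 * x.K + 2 * x.J + x.M := rfl
  have h1 := split x a (fun β => β + 2 * x.K < x.b1) (x.gA (x.lam a) a) 0 1 (x.lam a) (1 / 2)
    (1 / 2 - x.c / 10) (3 / 5) (fun β h => gA_lo x _ a β h) (fun β h0 h => gA_hi x _ a β h0 h)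
    (fun β h0 h h1 h2 => gA_fl x _ a β h0 h h1 h2) (fun β h0 h h1 h2 => gA_nf x _ a β h0 h h1 h2)
    (fun β h0 h h1 h2 => by
      unfold Prm.gA
      rw [if_neg (by omega), if_neg (by omega), if_neg h1, if_pos hRR, if_pos h2])
    (fun β h0 h h1 h2 => by
      unfold Prm.gA
      rw [if_neg (by omega), if_neg (by omega), if_neg h1, if_pos hRR, if_neg h2])
  have h2 := split_Dt x a (fun β => β + 2 * x.K < x.b1)
  rw [hkey] at h1
  have g1 := sum_out hx hBLK hCLD hMMD ha (u := 0) (v := x.b0) (Nat.zero_le _) (Or.inl (le_refl _))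
    (by omega) (fun β => β < x.b0) (fun β _ h => by unfold Prm.adj; omega)
    (fun β _ => by omega)
  have g5 := sum_mid hx hBLK hCLD hMMD ha (u := x.b0) (v := x.b1 - 2 * x.K) (by omega)
    (le_refl _) (by omega) (fun β => β ∈ x.mid ∧ ¬ x.adj a β ∧ β + 2 * x.K < x.b1)
    (fun β _ h => by unfold Prm.adj; omega)
    (fun β _ => by rw [mem_mid]; unfold Prm.adj; omega)
  have g6 := sum_mid hx hBLK hCLD hMMD ha (u := x.b1 - 2 * x.K) (v := a - x.K) (by omega)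
    (by omega) (by omega) (fun β => β ∈ x.mid ∧ ¬ x.adj a β ∧ ¬ β + 2 * x.K < x.b1)
    (fun β _ h => by unfold Prm.adj; omega)
    (fun β _ => by rw [mem_mid]; unfold Prm.adj; omega)
  set S1 := ∑ β ∈ (x.cls a).filter (fun β => β < x.b0), x.dem a β
  set S2 := ∑ β ∈ (x.cls a).filter (fun β => x.b0 ≤ β ∧ x.b1 ≤ β), x.dem a β
  set S5 := ∑ β ∈ (x.cls a).filter
    (fun β => β ∈ x.mid ∧ ¬ x.adj a β ∧ β + 2 * x.K < x.b1), x.dem a β
  set S6 := ∑ β ∈ (x.cls a).filter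
    (fun β => β ∈ x.mid ∧ ¬ x.adj a β ∧ ¬ β + 2 * x.K < x.b1), x.dem a β
  have e1 : ((x.b1 - 2 * x.K : ℕ) : ℝ) = x.K + x.J + x.M - 2 * x.K := by
    rw [Nat.cast_sub (by omega), hb1]; push_cast; ring
  have e2 : ((a - x.K : ℕ) : ℝ) = a - x.K := Nat.cast_sub (by omega)
  have e3 : ((x.b0 : ℕ) : ℝ) = x.K + x.J := by rw [hb0]; push_cast; ring
  have e4 : ((x.b1 : ℕ) : ℝ) = x.K + x.J + x.M := by rw [hb1]; push_cast; ring
  have hηθ := mul_pos hx.n0 hx.t0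
  have hmu := mu_small hx
  have hmu0 := hx.m0
  have hth : x.θ ≤ 1 := by
    have := hx.th
    have := eta_small hx
    linarith
  have hmu1 : x.μ ≤ x.η / 10 := by
    have : x.η * x.θ ≤ x.η * 1 := mul_le_mul_of_nonneg_left hth hx.n0.le
    linarith
  have hr0 : (0:ℝ) ≤ ((a:ℝ) + x.K - x.b1) * x.μ := by
    apply mul_nonneg _ hmu0.le
    have : ((x.b1 : ℕ) : ℝ) ≤ a + x.K := by exact_mod_cast hRR
    linarith
  have k1 := abs_le.mp hx.k1
  have j1 := hx.j1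
  have hr1 : ((a:ℝ) + x.K - x.b1) * x.μ ≤ 1 := by
    have h3 : (a:ℝ) + x.K - x.b1 ≤ x.K + x.J := by
      have : a + x.K ≤ x.K + x.J + x.b1 := by omega
      have : (a:ℝ) + x.K ≤ x.K + x.J + x.b1 := by exact_mod_cast this
      linarith
    have h4 : ((a:ℝ) + x.K - x.b1) * x.μ ≤ (x.K + x.J) * x.μ :=
      mul_le_mul_of_nonneg_right h3 hmu0.le
    have := hx.c2
    have := eta_small hx
    have := hx.e0
    linarith [k1.2]
  have hJm : x.μ ≤ x.J * x.μ := by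
    have : (1:ℝ) ≤ x.J := by exact_mod_cast hJ1
    nlinarith
  have hfin := arith (c := x.c) (η := x.η) (θ := x.θ) (κ := x.K * x.μ) (ι := x.J * x.μ)
    (ν := x.M * x.μ) (μ := x.μ) (r := ((a:ℝ) + x.K - x.b1) * x.μ) (S1 := S1) (S5 := S5) (S6 := S6)
    (by linarith [hx.c1, hx.e0]) (by linarith [hx.c2, hx.e0]) hx.n0 (eta_small hx) hx.t0 hx.k1
    hx.m1 j1 hJm hmu0 hmu1 hr0 hr1
    (by
      refine le_trans (le_of_eq ?_) g1.1
      rw [e3]; push_cast; ring)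
    (by
      refine le_trans g1.2 (le_of_eq ?_)
      rw [e3]; push_cast; ring)
    (by
      refine le_trans (le_of_eq ?_) g5.1
      rw [e3, e1]; ring)
    (by
      refine le_trans g5.2 (le_of_eq ?_)
      rw [e3, e1]; ring)
    (by
      refine le_trans ?_ g6.1
      rw [e1, e2, e4]
      have h3 : 0 ≤ (1 - x.η) * x.θ := mul_nonneg (by linarith [eta_small hx]) hx.t0.le
      apply mul_le_mul_of_nonneg_right _ h3
      nlinarith)
    (by
      refine le_trans g6.2 (le_of_eq ?_)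
      rw [e1, e2, e4]; ring)
  have hX : (1 - x.lam a) * x.DJ a + x.DN a / 2 =
      x.Dt a / 2 - S1 - (1 / 2 + x.c / 10) * S5 - 2 / 5 * S6 := by
    linarith [h1, h2]
  rw [hX]
  rw [abs_le] at hfin hDt ⊢
  constructor
  · linarith [hfin.1, hDt.1]
  · linarith [hfin.2, hDt.2]

end Pool.Agent.H31.HW
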